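import Pool.Agent.H53.QT.Main
import Pool.Agent.H53.QT.Harm

/-!
# The rational points on almost all quartic twists `d y⁴ = L₀ L₁ L₂ L₃`

Let `L k = α k x + β k w`, `k < 4`, be pairwise non-proportional linear forms with integral
coefficients. We consider the smooth plane quartics (curves of genus 3)

  `C d : d y⁴ = L₀ L₁ L₂ L₃`.

Each of them has the four rational points with `y = 0`. For all squarefree `d` with `|d| ≤ X`, with
at most `C X (log X)^(-1/100)` exceptions, and for all nonzero integers `d` outside a set of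
density zero:

* every rational point of `C d` with `y ≠ 0` is special: for some `i` the three numbers
  `L k (x, w) / L k (zero of L i)`, `k ≠ i`, are in the same class modulo rational fourth powers;
* `C d` has exactly four rational points, provided that one fixed curve, the diagonal quartic
  `A s⁴ + B t⁴ + C = 0` with `A + B + C = 0`, has only finitely many rational points (this is
  Faltings's theorem);
* `C d` has exactly four rational points if the four zeros are a harmonic quadruple, for example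
  `C d : d y⁴ = x³ w - x w³` (unconditionally).
-/

set_option autoImplicit false

namespace Pool.Agent.Results.MP_10e784_ag.QuarticTwists

open Filter Topology

/-- the determinant of the linear forms `α i x + β i w` and `α k x + β k w`; this is also the value
of the second form at the zero `(-β i, α i)` of the first one, up to the sign -/
def det (α β : Fin 4 → ℤ) (i k : Fin 4) : ℤ := α i * β k - α k * β i

/-- the value of the linear form `α k x + β k w` at `(x, w)` -/
def form (α β : Fin 4 → ℤ) (k : Fin 4) (x w : ℚ) : ℚ := (α k : ℚ) * x + (β k : ℚ) * w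

/-- the rational points of the plane quartic `d y⁴ = ∏ k, (α k x + β k w)` -/
def Curve (α β : Fin 4 → ℤ) (d : ℤ) : Set (Projectivization ℚ (Fin 3 → ℚ)) :=
  {P | (d : ℚ) * P.rep 2 ^ 4 = ∏ k, form α β k (P.rep 0) (P.rep 1)}

/-- for some `i` the numbers `form k (x, w) / det i k`, `k ≠ i`, are in the same class modulo
rational fourth powers -/
def Special (α β : Fin 4 → ℤ) (x w : ℚ) : Prop :=
  ∃ i, ∀ k l, k ≠ i → l ≠ i → ∃ t : ℚ,
    form α β k x w * (det α β i l : ℚ) = form α β l x w * (det α β i k : ℚ) * t ^ 4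

/-- almost no `d` has the property `P`: at most `C X (log X)^(-1/100)` of the squarefree `d` with
`|d| ≤ X`, and the set of the integers `d ≠ 0` with the property `P` has density zero -/
def AlmostNo (P : ℤ → Prop) : Prop :=
  (∃ C : ℝ, ∀ X : ℕ, 3 ≤ X →
    ({d : ℤ | d.natAbs ≤ X ∧ Squarefree d ∧ P d}.ncard : ℝ) ≤
      C * X * (Real.log X) ^ (-(1 / 100 : ℝ))) ∧
  Tendsto (fun X : ℕ => ({d : ℤ | d.natAbs ≤ X ∧ d ≠ 0 ∧ P d}.ncard : ℝ) / X) atTop (𝓝 0)

/-- the coefficients of the diagonal quartic `A s⁴ + B t⁴ + C = 0` -/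
def coeffA (α β : Fin 4 → ℤ) : ℤ := det α β 0 1 * det α β 2 3

/-- the coefficients of the diagonal quartic `A s⁴ + B t⁴ + C = 0` -/
def coeffB (α β : Fin 4 → ℤ) : ℤ := det α β 0 2 * det α β 3 1

/-- the coefficients of the diagonal quartic `A s⁴ + B t⁴ + C = 0` -/
def coeffC (α β : Fin 4 → ℤ) : ℤ := det α β 0 3 * det α β 1 2

theorem result (α β : Fin 4 → ℤ) (h : ∀ i k, i ≠ k → det α β i k ≠ 0) :
    -- (1) all points with `y ≠ 0` are special
    AlmostNo (fun d => ∃ x w y : ℚ, y ≠ 0 ∧ (d : ℚ) * y ^ 4 = ∏ k, form α β k x w ∧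
      ¬ Special α β x w) ∧
    -- (2) exactly four points if the diagonal quartic has finitely many points
    ({p : ℚ × ℚ | p.1 ≠ 0 ∧ p.2 ≠ 0 ∧ (coeffA α β : ℚ) * p.1 ^ 4 + (coeffB α β : ℚ) * p.2 ^ 4 +
      (coeffC α β : ℚ) = 0}.Finite → AlmostNo (fun d => (Curve α β d).ncard ≠ 4)) ∧
    -- (3) exactly four points for harmonic quadruples
    (coeffA α β = coeffB α β ∨ coeffB α β = coeffC α β ∨ coeffC α β = coeffA α β →
      AlmostNo (fun d => (Curve α β d).ncard ≠ 4)) := by
  have hF := Pool.Agent.H53.QT.finq_all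
  have hdt : ∀ i k, i ≠ k → Pool.Agent.H53.QT.dt α β i k ≠ 0 := h
  have h2 : {p : ℚ × ℚ | p.1 ≠ 0 ∧ p.2 ≠ 0 ∧ (coeffA α β : ℚ) * p.1 ^ 4 +
      (coeffB α β : ℚ) * p.2 ^ 4 + (coeffC α β : ℚ) = 0}.Finite →
      AlmostNo (fun d => (Curve α β d).ncard ≠ 4) := fun hfin =>
    ⟨Pool.Agent.H53.QT.genq3 hF α β hdt hfin, Pool.Agent.H53.QT.Dens.dens_fin hF α β hdt hfin⟩
  refine ⟨⟨?_, ?_⟩, h2, fun hh => h2 (Pool.Agent.H53.QT.Dens.harm_fin ?_ ?_ ?_ ?_ hh)⟩
  · obtain ⟨C, hC⟩ := Pool.Agent.H53.QT.genq hF α β hdt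
    refine ⟨C, fun X hX => le_trans ?_ (hC X hX)⟩
    refine Nat.cast_le.2 (Set.ncard_le_ncard ?_ (Pool.Agent.H53.QT.Exq.fin_le X _))
    rintro d ⟨h1, h2, x, w, y, hy, h3, h4⟩
    refine ⟨h1, h2, x, w, y, hy, h3, ?_⟩
    intro i
    by_contra hc
    push Not at hc
    exact h4 ⟨i, hc⟩
  · refine squeeze_zero (fun X => by positivity) (fun X => ?_)
      (Pool.Agent.H53.QT.Dens.dens_pt hF α β hdt)
    refine div_le_div_of_nonneg_right ?_ (Nat.cast_nonneg _)
    refine Nat.cast_le.2 (Set.ncard_le_ncard ?_ (Pool.Agent.H53.QT.Exq.fin_le X _))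
    rintro d ⟨h1, h2, x, w, y, hy, h3, h4⟩
    refine ⟨h1, h2, x, w, y, hy, h3, ?_⟩
    intro i
    by_contra hc
    push Not at hc
    exact h4 ⟨i, hc⟩
  · exact mul_ne_zero (h 0 1 (by decide)) (h 2 3 (by decide))
  · exact mul_ne_zero (h 0 2 (by decide)) (h 3 1 (by decide))
  · exact mul_ne_zero (h 0 3 (by decide)) (h 1 2 (by decide))
  · unfold coeffA coeffB coeffC det
    ring

end Pool.Agent.Results.MP_10e784_ag.QuarticTwists
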